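import Mathlib

/-! Weighted total dominating sets of cubic graphs: some total dominating set has at most half of the
total weight. -/

set_option autoImplicit false

namespace Pool.Agent.N57.FT

open Finset

variable {V : Type} [Fintype V] [DecidableEq V] (G : SimpleGraph V) [DecidableRel G.Adj]

/-- the neighbourhoods of the vertices in `F` can be properly 2-coloured -/
def Col (F : Finset V) : Prop :=
  ∃ R : Finset V, ∀ x ∈ F, (∃ u ∈ R, G.Adj x u) ∧ (∃ u, u ∉ R ∧ G.Adj x u)

/-- minimal non-2-colourable -/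
def Crit (F : Finset V) : Prop := ¬ Col G F ∧ ∀ F' : Finset V, F' ⊂ F → Col G F'

/-- the vertices of the edges in `F` -/
def VS (F : Finset V) : Finset V := F.biUnion fun x => G.neighborFinset x

variable {G}

lemma mem_VS {F : Finset V} {u : V} : u ∈ VS G F ↔ ∃ x ∈ F, G.Adj x u := by
  simp [VS]

/-- rank argument of Seymour -/
lemma card_VS_le {F : Finset V} (hF : Crit G F) : (VS G F).card ≤ F.card := by
  classical
  by_contra hlt
  push Not at hlt
  let A : Matrix F (VS G F) ℝ := fun x u => if G.Adj x.1 u.1 then 1 else 0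
  have hker : LinearMap.ker A.mulVecLin ≠ ⊥ := by
    apply LinearMap.ker_ne_bot_of_finrank_lt
    simpa using hlt
  obtain ⟨y, hy, hy0⟩ := (Submodule.ne_bot_iff _).1 hker
  rw [LinearMap.mem_ker, Matrix.mulVecLin_apply] at hy
  -- extend `y`
  let z : V → ℝ := fun u => if h : u ∈ VS G F then y ⟨u, h⟩ else 0
  have hz : ∀ x ∈ F, ∑ u ∈ G.neighborFinset x, z u = 0 := by
    intro x hx
    have h1 := congrFun hy ⟨x, hx⟩
    simp only [Matrix.mulVec, dotProduct, A, Pi.zero_apply, ite_mul, one_mul, zero_mul] at h1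
    have h2 : ∑ u : VS G F, (if G.Adj x u.1 then y u else 0) =
        ∑ u ∈ VS G F, (if G.Adj x u then z u else 0) := by
      rw [← Finset.sum_coe_sort (VS G F) (fun u => if G.Adj x u then z u else 0)]
      refine Finset.sum_congr rfl fun u _ => ?_
      simp [z]
    rw [h2, ← Finset.sum_filter] at h1
    rw [← h1]
    refine Finset.sum_congr ?_ fun _ _ => rfl
    ext u
    simp only [SimpleGraph.mem_neighborFinset, mem_filter]
    exact ⟨fun h => ⟨mem_VS.2 ⟨x, hx, h⟩, h⟩, fun h => h.2⟩
  obtain ⟨u0, hu0⟩ : ∃ u : VS G F, y u ≠ 0 := by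
    by_contra h
    push Not at h
    exact hy0 (funext h)
  obtain ⟨x0, hx0, hx0u⟩ := mem_VS.1 u0.2
  have hzu0 : z u0.1 ≠ 0 := by simpa [z] using hu0
  let F' := F.filter fun x => ∀ u, G.Adj x u → z u = 0
  have hF' : F' ⊂ F := by
    refine Finset.filter_ssubset.2 ⟨x0, hx0, ?_⟩
    intro h
    exact hzu0 (h _ hx0u)
  obtain ⟨R', hR'⟩ := hF.2 F' hF'
  refine hF.1 ⟨univ.filter fun u => 0 < z u ∨ (z u = 0 ∧ u ∈ R'), ?_⟩
  intro x hx
  by_cases hxF : x ∈ F'
  · have h0 := (mem_filter.1 hxF).2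
    obtain ⟨⟨a, ha, hxa⟩, b, hb, hxb⟩ := hR' x hxF
    refine ⟨⟨a, ?_, hxa⟩, b, ?_, hxb⟩
    · simp [h0 a hxa, ha]
    · simp [h0 b hxb, hb]
  · have h1 : ∃ u, G.Adj x u ∧ z u ≠ 0 := by
      by_contra h
      push Not at h
      exact hxF (mem_filter.2 ⟨hx, h⟩)
    obtain ⟨u, hxu, hu⟩ := h1
    have hs := hz x hx
    have hpos : ∃ a ∈ G.neighborFinset x, 0 < z a := by
      by_contra h
      push Not at h
      have := (Finset.sum_eq_zero_iff_of_nonpos h).1 hs u (by simpa using hxu)
      exact hu this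
    have hneg : ∃ a ∈ G.neighborFinset x, z a < 0 := by
      by_contra h
      push Not at h
      have := (Finset.sum_eq_zero_iff_of_nonneg h).1 hs u (by simpa using hxu)
      exact hu this
    obtain ⟨a, ha, hap⟩ := hpos
    obtain ⟨b, hb, hbn⟩ := hneg
    refine ⟨⟨a, ?_, by simpa using ha⟩, b, ?_, by simpa using hb⟩
    · simp [hap]
    · simp only [mem_filter, mem_univ, true_and, not_or, not_and]
      exact ⟨by linarith, fun h => by linarith⟩

/-- counting: a critical set of edges contains all edges which meet its vertices -/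
lemma crit_closed (hG : G.IsRegularOfDegree 3) {F : Finset V} (hF : Crit G F) :
    (VS G F).card = F.card ∧ ∀ u ∈ VS G F, ∀ x, G.Adj x u → x ∈ F := by
  classical
  have hle := card_VS_le hF
  have h1 : ∑ x ∈ F, (G.neighborFinset x).card = 3 * F.card := by
    rw [Finset.sum_congr rfl (fun x _ => show (G.neighborFinset x).card = 3 from by
      rw [SimpleGraph.card_neighborFinset_eq_degree]; exact hG x)]
    simp [mul_comm]
  have h2 : ∑ x ∈ F, (G.neighborFinset x).card =
      ∑ u ∈ VS G F, (F.filter fun x => G.Adj x u).card := by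
    have := Finset.sum_card_bipartiteAbove_eq_sum_card_bipartiteBelow
      (s := F) (t := VS G F) (r := fun x u => G.Adj x u)
    rw [show (∑ u ∈ VS G F, (F.filter fun x => G.Adj x u).card) =
      ∑ b ∈ VS G F, (Finset.bipartiteBelow (fun x u => G.Adj x u) F b).card from rfl, ← this]
    refine Finset.sum_congr rfl fun x hx => ?_
    congr 1
    ext u
    simp only [SimpleGraph.mem_neighborFinset, Finset.mem_bipartiteAbove]
    exact ⟨fun h => ⟨mem_VS.2 ⟨x, hx, h⟩, h⟩, fun h => h.2⟩
  have h3 : ∀ u ∈ VS G F, (F.filter fun x => G.Adj x u).card ≤ 3 := by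
    intro u _
    calc (F.filter fun x => G.Adj x u).card ≤ (G.neighborFinset u).card := by
          refine Finset.card_le_card fun x hx => ?_
          rw [SimpleGraph.mem_neighborFinset]
          exact (mem_filter.1 hx).2.symm
      _ = 3 := by rw [SimpleGraph.card_neighborFinset_eq_degree]; exact hG u
  have h4 : ∑ u ∈ VS G F, (F.filter fun x => G.Adj x u).card ≤ ∑ _u ∈ VS G F, 3 :=
    Finset.sum_le_sum h3
  have h5 : ∑ _u ∈ VS G F, 3 = 3 * (VS G F).card := by simp [mul_comm]
  have hcard : (VS G F).card = F.card := by omega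
  refine ⟨hcard, ?_⟩
  have h6 : ∑ u ∈ VS G F, (F.filter fun x => G.Adj x u).card = ∑ _u ∈ VS G F, 3 := by omega
  have h7 := (Finset.sum_eq_sum_iff_of_le h3).1 h6
  intro u hu x hxu
  have h8 : F.filter (fun x => G.Adj x u) = G.neighborFinset u := by
    refine Finset.eq_of_subset_of_card_le (fun x hx => ?_) ?_
    · rw [SimpleGraph.mem_neighborFinset]
      exact (mem_filter.1 hx).2.symm
    · rw [h7 u hu, SimpleGraph.card_neighborFinset_eq_degree]
      exact le_of_eq (hG u)
  have h9 : x ∈ F.filter (fun x => G.Adj x u) := by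
    rw [h8, SimpleGraph.mem_neighborFinset]
    exact hxu.symm
  exact (mem_filter.1 h9).1

/-- the three neighbours -/
lemma third (hG : G.IsRegularOfDegree 3) (x a b : V) :
    ∃ c, G.Adj x c ∧ c ≠ a ∧ c ≠ b := by
  classical
  by_contra h
  push Not at h
  have h1 : G.neighborFinset x ⊆ {a, b} := by
    intro c hc
    rw [SimpleGraph.mem_neighborFinset] at hc
    by_cases hca : c = a
    · simp [hca]
    · simp [h c hc hca]
  have h2 := Finset.card_le_card h1
  rw [SimpleGraph.card_neighborFinset_eq_degree, hG x] at h2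
  have h3 : ({a, b} : Finset V).card ≤ 2 := Finset.card_le_two
  omega

/-- the weighted claim on a critical set -/
lemma crit_weight (hG : G.IsRegularOfDegree 3) {F : Finset V} (hF : Crit G F) (w : V → ℝ)
    (hw : ∀ v, 0 ≤ w v) :
    ∃ T ⊆ VS G F, (∀ x ∈ F, ∃ u ∈ T, G.Adj x u) ∧ 2 * ∑ u ∈ T, w u ≤ ∑ u ∈ VS G F, w u := by
  classical
  obtain ⟨hcard, hclosed⟩ := crit_closed hG hF
  have hne : (VS G F).Nonempty := by
    have : F.Nonempty := by
      by_contra h
      rw [Finset.not_nonempty_iff_eq_empty] at h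
      exact hF.1 ⟨∅, by simp [h]⟩
    rw [← Finset.card_pos] at this ⊢
    omega
  obtain ⟨v, hv, hmin⟩ := Finset.exists_min_image (VS G F) w hne
  obtain ⟨x0, hx0, hx0v⟩ := mem_VS.1 hv
  set F' := F.filter fun x => ¬ G.Adj x v with hF'def
  have hF' : F' ⊂ F := Finset.filter_ssubset.2 ⟨x0, hx0, by simpa using hx0v⟩
  obtain ⟨R, hR⟩ := hF.2 F' hF'
  by_contra hcon
  push Not at hcon
  -- every valid colouring is nearly balanced
  have key : ∀ R : Finset V, (∀ x ∈ F', (∃ u ∈ R, G.Adj x u) ∧ (∃ u, u ∉ R ∧ G.Adj x u)) →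
      0 < (∑ u ∈ ((VS G F).erase v) ∩ R, w u) - (∑ u ∈ ((VS G F).erase v) \ R, w u) + w v ∧
      0 < (∑ u ∈ ((VS G F).erase v) \ R, w u) - (∑ u ∈ ((VS G F).erase v) ∩ R, w u) + w v := by
    intro R hR
    have hsum : ∑ u ∈ VS G F, w u = w v + ((∑ u ∈ ((VS G F).erase v) ∩ R, w u) +
        (∑ u ∈ ((VS G F).erase v) \ R, w u)) := by
      rw [← Finset.add_sum_erase _ _ hv, Finset.sum_inter_add_sum_sdiff]
    have hn1 : v ∉ ((VS G F).erase v) ∩ R := by simp
    have hn2 : v ∉ ((VS G F).erase v) \ R := by simp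
    have ht : ∀ x ∈ F, ∀ u, G.Adj x u → u ∈ VS G F := fun x hx u hu => mem_VS.2 ⟨x, hx, hu⟩
    have c1 := hcon (insert v (((VS G F).erase v) ∩ R)) (by
      intro a ha
      rcases Finset.mem_insert.1 ha with rfl | ha
      · exact hv
      · exact Finset.mem_of_mem_erase (Finset.mem_inter.1 ha).1) (by
      intro x hx
      by_cases hxv : G.Adj x v
      · exact ⟨v, by simp, hxv⟩
      · obtain ⟨⟨a, ha, hxa⟩, -⟩ := hR x (Finset.mem_filter.2 ⟨hx, hxv⟩)
        refine ⟨a, ?_, hxa⟩
        have : a ≠ v := by rintro rfl; exact hxv hxa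
        simp [ha, this, ht x hx a hxa])
    have c2 := hcon (insert v (((VS G F).erase v) \ R)) (by
      intro a ha
      rcases Finset.mem_insert.1 ha with rfl | ha
      · exact hv
      · exact Finset.mem_of_mem_erase (Finset.mem_sdiff.1 ha).1) (by
      intro x hx
      by_cases hxv : G.Adj x v
      · exact ⟨v, by simp, hxv⟩
      · obtain ⟨-, a, ha, hxa⟩ := hR x (Finset.mem_filter.2 ⟨hx, hxv⟩)
        refine ⟨a, ?_, hxa⟩
        have : a ≠ v := by rintro rfl; exact hxv hxa
        simp [ha, this, ht x hx a hxa])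
    rw [Finset.sum_insert hn1] at c1
    rw [Finset.sum_insert hn2] at c2
    constructor <;> linarith
  -- a vertex which can be flipped
  have hflip : ∃ u ∈ (VS G F).erase v, ∀ x ∈ F', G.Adj x u →
      ∃ u', u' ≠ u ∧ G.Adj x u' ∧ (u' ∈ R ↔ u ∈ R) := by
    by_contra h
    push Not at h
    choose! f hf using h
    have hinj : Set.InjOn f ((VS G F).erase v) := by
      intro a ha b hb hab
      by_contra hne
      obtain ⟨-, h1, h2⟩ := hf a ha
      obtain ⟨-, h3, h4⟩ := hf b hb
      rw [← hab] at h3 h4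
      obtain ⟨c, hc, hca, hcb⟩ := third hG (f a) a b
      have e1 := h2 b (Ne.symm hne) h3
      have e2 := h2 c hca hc
      have e3 := h4 c hcb hc
      by_cases q1 : a ∈ R <;> by_cases q2 : b ∈ R <;> by_cases q3 : c ∈ R <;> simp_all
    have hle : ((VS G F).erase v).card ≤ F'.card :=
      Finset.card_le_card_of_injOn f (fun a ha => (hf a ha).1) hinj
    rw [Finset.card_erase_of_mem hv, hcard] at hle
    have hthree : F'.card + 3 = F.card := by
      have h1 : F.filter (fun x => G.Adj x v) = G.neighborFinset v := by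
        ext x
        simp only [mem_filter, SimpleGraph.mem_neighborFinset]
        exact ⟨fun h => h.2.symm, fun h => ⟨hclosed v hv x h.symm, h.symm⟩⟩
      have h2 := Finset.card_filter_add_card_filter_not (s := F) (fun x => G.Adj x v)
      rw [h1, SimpleGraph.card_neighborFinset_eq_degree, hG v] at h2
      rw [hF'def]
      omega
    omega
  obtain ⟨u, hu, hfu⟩ := hflip
  have huv : u ≠ v := Finset.ne_of_mem_erase hu
  have huW : u ∈ VS G F := Finset.mem_of_mem_erase hu
  have hwu : w v ≤ w u := hmin u huW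
  obtain ⟨k1, k2⟩ := key R hR
  by_cases huR : u ∈ R
  · -- recolour `u`
    have hR1 : ∀ x ∈ F', (∃ a ∈ R.erase u, G.Adj x a) ∧ (∃ a, a ∉ R.erase u ∧ G.Adj x a) := by
      intro x hx
      obtain ⟨⟨a, ha, hxa⟩, b, hb, hxb⟩ := hR x hx
      by_cases hxu : G.Adj x u
      · obtain ⟨u', h1, h2, h3⟩ := hfu x hx hxu
        exact ⟨⟨u', Finset.mem_erase.2 ⟨h1, h3.2 huR⟩, h2⟩, u, by simp, hxu⟩
      · refine ⟨⟨a, Finset.mem_erase.2 ⟨?_, ha⟩, hxa⟩, b, fun h => hb (Finset.mem_of_mem_erase h), hxb⟩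
        rintro rfl
        exact hxu hxa
    obtain ⟨k3, k4⟩ := key _ hR1
    have e1 : ∑ a ∈ ((VS G F).erase v) ∩ R.erase u, w a =
        (∑ a ∈ ((VS G F).erase v) ∩ R, w a) - w u := by
      have : ((VS G F).erase v) ∩ R.erase u = (((VS G F).erase v) ∩ R).erase u := by
        ext a; simp only [mem_inter, mem_erase]; tauto
      rw [this, ← Finset.add_sum_erase (((VS G F).erase v) ∩ R) w (a := u)
        (Finset.mem_inter.2 ⟨hu, huR⟩)]
      ring
    have e2 : ∑ a ∈ ((VS G F).erase v) \ R.erase u, w a =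
        (∑ a ∈ ((VS G F).erase v) \ R, w a) + w u := by
      have : ((VS G F).erase v) \ R.erase u = insert u (((VS G F).erase v) \ R) := by
        ext a
        simp only [mem_sdiff, mem_erase, mem_insert]
        constructor
        · rintro ⟨h1, h2⟩
          by_cases hau : a = u
          · exact Or.inl hau
          · exact Or.inr ⟨h1, fun h => h2 ⟨hau, h⟩⟩
        · rintro (rfl | ⟨h1, h2⟩)
          · exact ⟨⟨huv, huW⟩, fun h => h.1 rfl⟩
          · exact ⟨h1, fun h => h2 h.2⟩
      rw [this, Finset.sum_insert (by simp [huR])]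
      ring
    rw [e1, e2] at k3 k4
    linarith
  · have hR1 : ∀ x ∈ F', (∃ a ∈ insert u R, G.Adj x a) ∧ (∃ a, a ∉ insert u R ∧ G.Adj x a) := by
      intro x hx
      obtain ⟨⟨a, ha, hxa⟩, b, hb, hxb⟩ := hR x hx
      by_cases hxu : G.Adj x u
      · obtain ⟨u', h1, h2, h3⟩ := hfu x hx hxu
        exact ⟨⟨u, by simp, hxu⟩, u', by simp [h1]; exact fun h => huR (h3.1 h), h2⟩
      · refine ⟨⟨a, by simp [ha], hxa⟩, b, ?_, hxb⟩
        simp only [mem_insert, not_or]
        exact ⟨by rintro rfl; exact hxu hxb, hb⟩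
    obtain ⟨k3, k4⟩ := key _ hR1
    have e1 : ∑ a ∈ ((VS G F).erase v) ∩ insert u R, w a =
        (∑ a ∈ ((VS G F).erase v) ∩ R, w a) + w u := by
      have : ((VS G F).erase v) ∩ insert u R = insert u (((VS G F).erase v) ∩ R) := by
        ext a
        simp only [mem_inter, mem_erase, mem_insert]
        constructor
        · rintro ⟨h1, h2 | h2⟩
          · exact Or.inl h2
          · exact Or.inr ⟨h1, h2⟩
        · rintro (rfl | ⟨h1, h2⟩)
          · exact ⟨⟨huv, huW⟩, Or.inl rfl⟩
          · exact ⟨h1, Or.inr h2⟩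
      rw [this, Finset.sum_insert (by simp [huR])]
      ring
    have e2 : ∑ a ∈ ((VS G F).erase v) \ insert u R, w a =
        (∑ a ∈ ((VS G F).erase v) \ R, w a) - w u := by
      have : ((VS G F).erase v) \ insert u R = (((VS G F).erase v) \ R).erase u := by
        ext a; simp only [mem_sdiff, mem_erase, mem_insert]; tauto
      rw [this, ← Finset.add_sum_erase (((VS G F).erase v) \ R) w (a := u)
        (Finset.mem_sdiff.2 ⟨hu, huR⟩)]
      ring
    rw [e1, e2] at k3 k4
    linarith

/-- closed sets of vertices -/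
def Cl (G : SimpleGraph V) (U : Finset V) : Prop :=
  ∀ x, (∀ u, G.Adj x u → u ∈ U) ∨ (∀ u, G.Adj x u → u ∉ U)

lemma exists_crit {F : Finset V} (h : ¬ Col G F) : ∃ F' ⊆ F, Crit G F' := by
  classical
  induction F using Finset.strongInduction with
  | H F ih =>
    by_cases hc : Crit G F
    · exact ⟨F, subset_rfl, hc⟩
    · have : ∃ F' : Finset V, F' ⊂ F ∧ ¬ Col G F' := by
        by_contra h'
        push Not at h'
        exact hc ⟨h, h'⟩
      obtain ⟨F', h1, h2⟩ := this
      obtain ⟨F'', h3, h4⟩ := ih F' h1 h2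
      exact ⟨F'', h3.trans h1.subset, h4⟩

lemma closed_weight (hG : G.IsRegularOfDegree 3) (w : V → ℝ) (hw : ∀ v, 0 ≤ w v) (U : Finset V) :
    Cl G U → ∃ T ⊆ U, (∀ x, (∀ u, G.Adj x u → u ∈ U) → ∃ u ∈ T, G.Adj x u) ∧
      2 * ∑ u ∈ T, w u ≤ ∑ u ∈ U, w u := by
  classical
  induction U using Finset.strongInduction with
  | H U ih =>
    intro hU
    set F0 : Finset V := univ.filter fun x => ∀ u, G.Adj x u → u ∈ U with hF0
    by_cases hc : Col G F0
    · obtain ⟨R, hR⟩ := hc
      have hsum := Finset.sum_inter_add_sum_sdiff U R w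
      rcases le_total (∑ u ∈ U ∩ R, w u) (∑ u ∈ U \ R, w u) with hle | hle
      · refine ⟨U ∩ R, Finset.inter_subset_left, ?_, by linarith⟩
        intro x hx
        obtain ⟨⟨a, ha, hxa⟩, -⟩ := hR x (by simp [hF0]; exact hx)
        exact ⟨a, Finset.mem_inter.2 ⟨hx a hxa, ha⟩, hxa⟩
      · refine ⟨U \ R, Finset.sdiff_subset, ?_, by linarith⟩
        intro x hx
        obtain ⟨-, a, ha, hxa⟩ := hR x (by simp [hF0]; exact hx)
        exact ⟨a, Finset.mem_sdiff.2 ⟨hx a hxa, ha⟩, hxa⟩
    · obtain ⟨F, hFF0, hF⟩ := exists_crit hc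
      obtain ⟨hcard, hclosed⟩ := crit_closed hG hF
      have hWU : VS G F ⊆ U := by
        intro u hu
        obtain ⟨x, hx, hxu⟩ := mem_VS.1 hu
        have := hFF0 hx
        simp only [hF0, mem_filter, mem_univ, true_and] at this
        exact this u hxu
      have hne : (VS G F).Nonempty := by
        have : F.Nonempty := by
          by_contra h
          rw [Finset.not_nonempty_iff_eq_empty] at h
          exact hF.1 ⟨∅, by simp [h]⟩
        rw [← Finset.card_pos] at this ⊢
        omega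
      obtain ⟨T1, hT1, hT1x, hT1w⟩ := crit_weight hG hF w hw
      have hss : U \ VS G F ⊂ U := by
        refine Finset.ssubset_iff_subset_ne.2 ⟨Finset.sdiff_subset, ?_⟩
        intro h
        obtain ⟨a, ha⟩ := hne
        have := hWU ha
        rw [← h] at this
        exact (Finset.mem_sdiff.1 this).2 ha
      have hx3 : ∀ x, x ∉ F → ∀ u, G.Adj x u → u ∉ VS G F := by
        intro x hx u hxu hu
        exact hx (hclosed u hu x hxu)
      obtain ⟨T2, hT2, hT2x, hT2w⟩ := ih (U \ VS G F) hss (by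
        intro x
        by_cases hxF : x ∈ F
        · right
          intro u hxu h
          exact (Finset.mem_sdiff.1 h).2 (mem_VS.2 ⟨x, hxF, hxu⟩)
        · rcases hU x with h | h
          · left
            intro u hxu
            exact Finset.mem_sdiff.2 ⟨h u hxu, hx3 x hxF u hxu⟩
          · right
            intro u hxu h'
            exact h u hxu (Finset.mem_sdiff.1 h').1)
      refine ⟨T1 ∪ T2, Finset.union_subset (hT1.trans hWU) (hT2.trans Finset.sdiff_subset), ?_, ?_⟩
      · intro x hx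
        by_cases hxF : x ∈ F
        · obtain ⟨u, hu, hxu⟩ := hT1x x hxF
          exact ⟨u, Finset.mem_union_left _ hu, hxu⟩
        · obtain ⟨u, hu, hxu⟩ := hT2x x (fun u hxu =>
            Finset.mem_sdiff.2 ⟨hx u hxu, hx3 x hxF u hxu⟩)
          exact ⟨u, Finset.mem_union_right _ hu, hxu⟩
      · have h1 : ∑ u ∈ T1 ∪ T2, w u ≤ ∑ u ∈ T1, w u + ∑ u ∈ T2, w u := by
          have := Finset.sum_union_inter (s₁ := T1) (s₂ := T2) (f := w)
          have h2 : 0 ≤ ∑ u ∈ T1 ∩ T2, w u := Finset.sum_nonneg fun u _ => hw u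
          linarith
        have h2 := Finset.sum_sdiff (f := w) hWU
        linarith

theorem exists_light (hG : G.IsRegularOfDegree 3) (w : V → ℝ) (hw : ∀ v, 0 ≤ w v) :
    ∃ T : Finset V, (∀ x, ∃ u ∈ T, G.Adj x u) ∧ 2 * ∑ u ∈ T, w u ≤ ∑ u, w u := by
  obtain ⟨T, -, h1, h2⟩ := closed_weight hG w hw univ (fun x => Or.inl fun u _ => mem_univ u)
  exact ⟨T, fun x => h1 x fun u _ => mem_univ u, h2⟩

end Pool.Agent.N57.FT
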