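import Mathlib

/-! LP duality: from a light member for all weights to a fractional packing. -/

set_option autoImplicit false

namespace Pool.Agent.N57.FT

open Finset

variable {V : Type} [Fintype V] [DecidableEq V]

/-- indicator function -/
def ind (S : Finset V) : V → ℝ := fun v => if v ∈ S then 1 else 0

lemma ind_inj : Function.Injective (ind : Finset V → V → ℝ) := by
  intro S T h
  ext v
  have := congrFun h v
  simp only [ind] at this
  by_cases h1 : v ∈ S <;> by_cases h2 : v ∈ T <;> simp_all

theorem exists_packing (P : Finset (Finset V))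
    (h : ∀ w : V → ℝ, (∀ v, 0 ≤ w v) → ∃ T ∈ P, 2 * ∑ u ∈ T, w u ≤ ∑ u, w u) :
    ∃ w : Finset V → ℝ, (∀ S, 0 ≤ w S) ∧ (∀ S, w S ≠ 0 → S ∈ P) ∧
      (∀ v : V, ∑ S ∈ Finset.univ.filter (fun S : Finset V => v ∈ S), w S ≤ 1) ∧
      2 ≤ ∑ S, w S := by
  classical
  let C : Set (V → ℝ) := convexHull ℝ (↑(P.image ind) : Set (V → ℝ))
  let D : Set (V → ℝ) := {p | ∀ v, p v ≤ 1 / 2}
  have key : (C ∩ D).Nonempty := by
    by_contra hne
    have hdisj : Disjoint C D := by
      rw [Set.disjoint_iff_inter_eq_empty]
      exact Set.not_nonempty_iff_eq_empty.1 hne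
    have hCconv : Convex ℝ C := convex_convexHull _ _
    have hCcomp : IsCompact C := (Finset.finite_toSet _).isCompact_convexHull (𝕜 := ℝ)
    have hDconv : Convex ℝ D := by
      intro p hp q hq a b ha hb hab v
      have h1 := hp v
      have h2 := hq v
      simp only [Pi.add_apply, Pi.smul_apply, smul_eq_mul]
      nlinarith [mul_le_mul_of_nonneg_left h1 ha, mul_le_mul_of_nonneg_left h2 hb]
    have hDclosed : IsClosed D := by
      have : D = ⋂ v, {p : V → ℝ | p v ≤ 1 / 2} := by ext p; simp [D]
      rw [this]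
      exact isClosed_iInter fun v => isClosed_le (continuous_apply v) continuous_const
    obtain ⟨f, a, b, hfa, hab, hfb⟩ :=
      geometric_hahn_banach_compact_closed hCconv hCcomp hDconv hDclosed hdisj
    -- coordinates
    have hf : ∀ p : V → ℝ, f p = ∑ v, p v * f (Pi.single v 1) := by
      intro p
      have : p = ∑ v, p v • (Pi.single v (1 : ℝ) : V → ℝ) := by
        ext u
        simp [Finset.sum_apply, Pi.single_apply]
      conv_lhs => rw [this]
      rw [map_sum]
      refine Finset.sum_congr rfl fun v _ => ?_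
      rw [map_smul, smul_eq_mul]
    have hneg : ∀ v, f (Pi.single v 1) ≤ 0 := by
      intro v
      by_contra hpos
      push Not at hpos
      set c := f (Pi.single v 1) with hc
      have h0 : b < 0 := by
        have := hfb 0 (by intro u; simp)
        simpa using this
      have h1 := hfb ((b / c) • (Pi.single v (1 : ℝ) : V → ℝ)) (by
        intro u
        simp only [Pi.smul_apply, smul_eq_mul]
        have : b / c ≤ 0 := by
          exact le_of_lt (div_neg_of_neg_of_pos h0 hpos)
        by_cases huv : u = v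
        · subst huv; simp; linarith
        · simp [Pi.single_apply, huv])
      rw [map_smul, smul_eq_mul, ← hc, div_mul_cancel₀ _ (ne_of_gt hpos)] at h1
      exact lt_irrefl _ h1
    obtain ⟨T, hT, hTw⟩ := h (fun v => - f (Pi.single v 1)) (fun v => by
      have := hneg v; simpa using this)
    have h1 := hfa (ind T) (subset_convexHull _ _ (by
      simp only [Finset.coe_image, Set.mem_image, Finset.mem_coe]
      exact ⟨T, hT, rfl⟩))
    have h2 := hfb (fun _ => 1 / 2) (by intro u; simp)
    rw [hf] at h1 h2
    have h3 : ∑ v, ind T v * f (Pi.single v 1) = ∑ v ∈ T, f (Pi.single v 1) := by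
      simp [ind]
    have h4 : ∑ v : V, (1 / 2 : ℝ) * f (Pi.single v 1) = (1 / 2) * ∑ v, f (Pi.single v 1) := by
      rw [Finset.mul_sum]
    rw [h3] at h1
    rw [h4] at h2
    simp only [Finset.sum_neg_distrib] at hTw
    linarith
  obtain ⟨p, hpC, hpD⟩ := key
  obtain ⟨c, hc0, hc1, hc2⟩ := Finset.mem_convexHull'.1 hpC
  rw [Finset.sum_image (fun S _ T _ hST => ind_inj hST)] at hc1 hc2
  have hfil : ∀ (g : Finset V → ℝ) , ∑ S : Finset V, (if S ∈ P then g S else 0) = ∑ S ∈ P, g S := by
    intro g
    rw [← Finset.sum_filter]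
    congr 1
    ext S; simp
  refine ⟨fun S => if S ∈ P then 2 * c (ind S) else 0, ?_, ?_, ?_, ?_⟩
  · intro S
    by_cases hS : S ∈ P
    · simp only [hS, if_true]
      have := hc0 (ind S) (Finset.mem_image_of_mem _ hS)
      linarith
    · simp [hS]
  · intro S hS
    by_contra h'
    simp [h'] at hS
  · intro v
    have h1 : p v = ∑ S ∈ P, c (ind S) * ind S v := by
      rw [← hc2]
      simp [Finset.sum_apply]
    have h2 := hpD v
    have h3 : ∑ S ∈ Finset.univ.filter (fun S : Finset V => v ∈ S),
        (if S ∈ P then 2 * c (ind S) else 0) = 2 * ∑ S ∈ P, c (ind S) * ind S v := by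
      rw [Finset.sum_filter, Finset.mul_sum, ← hfil]
      refine Finset.sum_congr rfl fun S _ => ?_
      by_cases hS : S ∈ P <;> by_cases hv : v ∈ S <;> simp [hS, hv, ind]
    rw [h3, ← h1]
    linarith
  · rw [hfil, ← Finset.mul_sum, hc1]
    norm_num

end Pool.Agent.N57.FT
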